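import Pool.Agent.R803.PellVals

/-!
# The numbers `N_m = 8 d_m ^ 2 + 1`: small divisors on average
-/

set_option autoImplicit false

namespace Pool.Agent.L5helper73.LD

open Finset Pool.Agent.R803.PV
open scoped ArithmeticFunction.vonMangoldt

/-- `d_m` -/
def dd (m : ℕ) : ℕ := (db m).1

/-- `b_m` -/
def bb (m : ℕ) : ℕ := (db m).2

theorem dd_succ (m : ℕ) : dd (m + 1) = 3 * dd m + 8 * bb m := rfl
theorem bb_succ (m : ℕ) : bb (m + 1) = dd m + 3 * bb m := rfl
theorem dd_zero : dd 0 = 1 := rfl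
theorem bb_zero : bb 0 = 0 := rfl
theorem pell' (m : ℕ) : dd m ^ 2 = 8 * bb m ^ 2 + 1 := pell m
theorem N_dd (m : ℕ) : N m = 8 * dd m ^ 2 + 1 := rfl
theorem N_bb (m : ℕ) : N m = 64 * bb m ^ 2 + 9 := N_eq m

theorem add (m n : ℕ) : dd (m + n) = dd m * dd n + 8 * bb m * bb n ∧
    bb (m + n) = dd m * bb n + bb m * dd n := by
  induction n with
  | zero => simp [dd_zero, bb_zero]
  | succ n ih =>
    rw [← add_assoc, dd_succ (m + n), bb_succ (m + n), ih.1, ih.2, dd_succ n, bb_succ n]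
    constructor <;> ring

/-- the subtraction formula -/
theorem sub (s u : ℕ) : (bb u : ℤ) = bb (u + s) * dd s - dd (u + s) * bb s := by
  rw [(add u s).1, (add u s).2]
  have h := pell' s
  have h' : ((dd s : ℤ)) ^ 2 = 8 * (bb s : ℤ) ^ 2 + 1 := by exact_mod_cast h
  push_cast
  linear_combination (-(bb u : ℤ)) * h'

theorem dvd_sub {d s u : ℕ} (h1 : d ∣ bb (u + s)) (h2 : d ∣ bb s) : d ∣ bb u := by
  have h3 : (d : ℤ) ∣ (bb u : ℤ) := by
    rw [sub s u]
    exact (Dvd.dvd.mul_right (Int.natCast_dvd_natCast.2 h1) _).sub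
      (Dvd.dvd.mul_left (Int.natCast_dvd_natCast.2 h2) _)
  exact Int.natCast_dvd_natCast.1 h3

/-- the rank of apparition (`0` if there is none) -/
noncomputable def z (d : ℕ) : ℕ := sInf {t | 0 < t ∧ d ∣ bb t}

theorem z_spec {d : ℕ} (h : z d ≠ 0) : d ∣ bb (z d) := by
  have hne : {t | 0 < t ∧ d ∣ bb t}.Nonempty := by
    by_contra hc
    rw [Set.not_nonempty_iff_eq_empty] at hc
    exact h (by unfold z; rw [hc]; exact Nat.sInf_empty)
  exact (Nat.sInf_mem hne).2

theorem z_pos {d t : ℕ} (ht : 0 < t) (h : d ∣ bb t) : 0 < z d :=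
  (Nat.sInf_mem (⟨t, ht, h⟩ : {t | 0 < t ∧ d ∣ bb t}.Nonempty)).1

theorem z_dvd {d : ℕ} : ∀ t : ℕ, d ∣ bb t → z d ∣ t := by
  intro t
  induction t using Nat.strong_induction_on with
  | _ t ih =>
    intro h
    rcases Nat.eq_zero_or_pos t with rfl | ht
    · exact dvd_zero _
    · have hz := z_pos ht h
      have hle : z d ≤ t := Nat.sInf_le ⟨ht, h⟩
      obtain ⟨u, rfl⟩ := Nat.exists_eq_add_of_le' hle
      have h1 := dvd_sub h (z_spec hz.ne')
      exact (Nat.dvd_add_left (dvd_refl _)).2 (ih u (by omega) h1)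

theorem le_six (m : ℕ) : dd m ≤ 6 ^ m ∧ bb m ≤ dd m := by
  induction m with
  | zero => simp [dd_zero, bb_zero]
  | succ m ih =>
    have h := pell' m
    have h1 : 8 * bb m ≤ 3 * dd m := by nlinarith
    rw [dd_succ, bb_succ, pow_succ]
    constructor
    · omega
    · omega

theorem bb_pos {m : ℕ} (hm : 0 < m) : 0 < bb m := by
  obtain ⟨n, rfl⟩ := Nat.exists_eq_succ_of_ne_zero hm.ne'
  have h := pell' n
  rw [Nat.succ_eq_add_one, bb_succ]
  have : 0 < dd n := by
    rcases Nat.eq_zero_or_pos (dd n) with h0 | h0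
    · rw [h0] at h
      omega
    · exact h0
  omega

theorem three_le (m : ℕ) : 3 ^ m ≤ dd m := by
  induction m with
  | zero => simp [dd_zero]
  | succ m ih =>
    rw [dd_succ, pow_succ]
    omega

theorem log_N_ge (m : ℕ) : (m : ℝ) ≤ Real.log (N m) := by
  have h1 : (3 : ℝ) ^ m ≤ N m := by
    have h2 := three_le m
    have h3 : dd m ≤ N m := by
      rw [N_dd]
      nlinarith
    exact_mod_cast h2.trans h3
  have h4 : (m : ℝ) ≤ Real.log ((3 : ℝ) ^ m) := by
    rw [Real.log_pow]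
    have h5 : (1 : ℝ) ≤ Real.log 3 := by
      rw [Real.le_log_iff_exp_le (by norm_num)]
      linarith [Real.exp_one_lt_d9]
    have h6 : (0 : ℝ) ≤ m := Nat.cast_nonneg m
    nlinarith
  exact h4.trans (Real.log_le_log (by positivity) h1)

/-- a prime power which divides `N m` and `N n` divides `b_(m-n)` or `b_(m+n)` -/
theorem dvd_or {q k m n : ℕ} (hq : q.Prime) (h3 : q ≠ 3) (hk : 0 < k) (hnm : n ≤ m) (h1 : q ^ k ∣ N m)
    (h2 : q ^ k ∣ N n) : q ^ k ∣ bb (m - n) ∨ q ^ k ∣ bb (m + n) := by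
  obtain ⟨u, rfl⟩ := Nat.exists_eq_add_of_le' hnm
  rw [Nat.add_sub_cancel]
  have hq1 : q ∣ N (u + n) := (dvd_pow_self q hk.ne').trans h1
  have hq2 : q ∣ N n := (dvd_pow_self q hk.ne').trans h2
  have hq0 : q ≠ 2 := by
    rintro rfl
    exact N_odd n hq2
  have hqp : Prime (q : ℤ) := Nat.prime_iff_prime_int.1 hq
  have e1 : (N (u + n) : ℤ) - N n = 64 * (bb u * bb (u + n + n)) := by
    rw [N_bb, N_bb, (add (u + n) n).2]
    have e := sub n u
    have p1 : ((dd n : ℤ)) ^ 2 = 8 * (bb n : ℤ) ^ 2 + 1 := by exact_mod_cast pell' n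
    have p2 : ((dd (u + n) : ℤ)) ^ 2 = 8 * (bb (u + n) : ℤ) ^ 2 + 1 := by exact_mod_cast pell' (u + n)
    rw [e]
    push_cast
    linear_combination (-64 * (bb (u + n) : ℤ) ^ 2) * p1 + (64 * (bb n : ℤ) ^ 2) * p2
  have e2 : ((q ^ k : ℕ) : ℤ) ∣ 64 * (bb u * bb (u + n + n)) := by
    rw [← e1]
    exact (Int.natCast_dvd_natCast.2 h1).sub (Int.natCast_dvd_natCast.2 h2)
  have e3 : q ^ k ∣ 64 * (bb u * bb (u + n + n)) := by exact_mod_cast e2
  have hc : Nat.Coprime (q ^ k) 64 := by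
    refine Nat.Coprime.pow_left k ?_
    rw [show 64 = 2 ^ 6 by norm_num]
    exact Nat.Coprime.pow_right 6 ((Nat.coprime_primes hq Nat.prime_two).2 hq0)
  have e4 : q ^ k ∣ bb u * bb (u + n + n) := hc.dvd_of_dvd_mul_left e3
  by_cases h : q ∣ bb (u + n + n)
  · by_cases h' : q ∣ bb u
    · exfalso
      have i1 : (q : ℤ) ∣ bb (u + n + n) := Int.natCast_dvd_natCast.2 h
      have i2 : (q : ℤ) ∣ bb u := Int.natCast_dvd_natCast.2 h'
      have i4 : (2 * (bb (u + n) * dd n) : ℤ) = bb (u + n + n) + bb u := by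
        rw [sub n u, (add (u + n) n).2]
        push_cast
        ring
      have i3 : (q : ℤ) ∣ 2 * (bb (u + n) * dd n) := by
        rw [i4]
        exact i1.add i2
      rcases hqp.dvd_or_dvd i3 with h4 | h4
      · have : q ∣ 2 := by exact_mod_cast h4
        exact hq0 ((Nat.prime_dvd_prime_iff_eq hq Nat.prime_two).1 this)
      · rcases hqp.dvd_or_dvd h4 with h5 | h5
        · have h6 : q ∣ bb (u + n) := Int.natCast_dvd_natCast.1 h5
          rw [N_bb] at hq1
          have h7 : q ∣ 64 * bb (u + n) ^ 2 := (h6.trans (dvd_pow_self _ (by norm_num))).mul_left 64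
          have h8 : q ∣ 9 := (Nat.dvd_add_right h7).1 hq1
          have h9 : q ∣ 3 := hq.dvd_of_dvd_pow (by rw [show 3 ^ 2 = 9 by norm_num]; exact h8 : q ∣ 3 ^ 2)
          exact h3 ((Nat.prime_dvd_prime_iff_eq hq Nat.prime_three).1 h9)
        · have h6 : q ∣ dd n := Int.natCast_dvd_natCast.1 h5
          rw [N_dd] at hq2
          have h7 : q ∣ 8 * dd n ^ 2 := (h6.trans (dvd_pow_self _ (by norm_num))).mul_left 8
          have h8 : q ∣ 1 := (Nat.dvd_add_right h7).1 hq2
          exact hq.one_lt.ne' (Nat.dvd_one.1 h8)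
    · right
      have : Nat.Coprime (q ^ k) (bb u) := Nat.Coprime.pow_left k ((Nat.Prime.coprime_iff_not_dvd hq).2 h')
      exact this.dvd_of_dvd_mul_left e4
  · left
    have : Nat.Coprime (q ^ k) (bb (u + n + n)) :=
      Nat.Coprime.pow_left k ((Nat.Prime.coprime_iff_not_dvd hq).2 h)
    exact this.dvd_of_dvd_mul_right e4

/-- the places `m ≤ X` with `d ∣ N m` -/
def S (X d : ℕ) : Finset ℕ := (Icc 1 X).filter fun m => d ∣ N m

theorem card_class (X t r : ℕ) : #((Icc 1 X).filter fun m => m ≡ r [MOD t]) ≤ X / t + 1 := by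
  have h : #((Icc 1 X).filter fun m => m ≡ r [MOD t]) ≤ #(range (X / t + 1)) := by
    refine card_le_card_of_injOn (fun m => m / t) (fun m hm => ?_) fun m hm n hn h => ?_
    · rw [mem_coe, mem_filter, mem_Icc] at hm
      rw [mem_coe, mem_range]
      exact Nat.lt_succ_of_le (Nat.div_le_div_right hm.1.2)
    · rw [mem_coe, mem_filter] at hm hn
      have h1 : m % t = n % t := hm.2.trans hn.2.symm
      have h2 : m / t = n / t := h
      rw [← Nat.div_add_mod m t, ← Nat.div_add_mod n t, h1, h2]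
  rwa [card_range] at h

theorem card_S {q k : ℕ} (hq : q.Prime) (h3 : q ≠ 3) (hk : 0 < k) (X : ℕ) :
    #(S X (q ^ k)) ≤ 2 * (X / z (q ^ k) + 1) := by
  rcases (S X (q ^ k)).eq_empty_or_nonempty with h | h
  · rw [h, card_empty]
    exact Nat.zero_le _
  · set n := (S X (q ^ k)).min' h with hn
    have hnS : n ∈ S X (q ^ k) := min'_mem _ _
    have hn1 : 1 ≤ n ∧ q ^ k ∣ N n := by
      rw [S, mem_filter, mem_Icc] at hnS
      exact ⟨hnS.1.1, hnS.2⟩
    have hsub : S X (q ^ k) ⊆ ((Icc 1 X).filter fun m => m ≡ n [MOD z (q ^ k)]) ∪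
        ((Icc 1 X).filter fun m => m ≡ z (q ^ k) * n - n [MOD z (q ^ k)]) := by
      intro m hm
      have hnm : n ≤ m := min'_le _ _ hm
      rw [S, mem_filter] at hm
      rw [mem_union, mem_filter, mem_filter]
      rcases dvd_or hq h3 hk hnm hm.2 hn1.2 with h4 | h4
      · left
        refine ⟨hm.1, ?_⟩
        exact ((Nat.modEq_iff_dvd' hnm).2 (z_dvd _ h4)).symm
      · right
        refine ⟨hm.1, ?_⟩
        have h5 := z_dvd _ h4
        have hz : 0 < z (q ^ k) := z_pos (by omega) h4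
        have h6 : n ≤ z (q ^ k) * n := Nat.le_mul_of_pos_left n hz
        refine Nat.ModEq.add_right_cancel' n ?_
        rw [Nat.sub_add_cancel h6]
        exact ((Nat.modEq_zero_iff_dvd).2 h5).trans
          ((Nat.modEq_zero_iff_dvd).2 (dvd_mul_right _ _)).symm
    refine (card_le_card hsub).trans ((card_union_le _ _).trans ?_)
    have := card_class X (z (q ^ k)) n
    have := card_class X (z (q ^ k)) (z (q ^ k) * n - n)
    omega

end Pool.Agent.L5helper73.LD
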