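import Pool.Agent.L5helper73.LD.A

/-!
# The numbers `N_m = 8 d_m ^ 2 + 1`: the least common multiple of the small divisors
-/

set_option autoImplicit false

namespace Pool.Agent.L5helper73.LD

open Finset Pool.Agent.R803.PV ArithmeticFunction

theorem sum_rank {t : ℕ} (ht : 0 < t) (Q : ℕ) :
    ∑ d ∈ (Icc 1 Q).filter (fun d => z d = t), Λ d ≤ t * Real.log 6 := by
  have h1 : (Icc 1 Q).filter (fun d => z d = t) ⊆ (bb t).divisors := by
    intro d hd
    rw [mem_filter] at hd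
    rw [Nat.mem_divisors]
    refine ⟨?_, (bb_pos ht).ne'⟩
    have := z_spec (d := d) (by omega)
    rwa [hd.2] at this
  calc ∑ d ∈ (Icc 1 Q).filter (fun d => z d = t), Λ d ≤ ∑ d ∈ (bb t).divisors, Λ d :=
        sum_le_sum_of_subset_of_nonneg h1 fun _ _ _ => vonMangoldt_nonneg
    _ = Real.log (bb t) := vonMangoldt_sum
    _ ≤ Real.log ((6 : ℝ) ^ t) := by
        refine Real.log_le_log (by exact_mod_cast bb_pos ht) ?_
        have := (le_six t).2.trans (le_six t).1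
        exact_mod_cast this
    _ = t * Real.log 6 := Real.log_pow _ _

theorem log_four : Real.log 4 ≤ 1.4 := by
  have h : Real.log 4 = 2 * Real.log 2 := by
    rw [show (4 : ℝ) = 2 ^ 2 by norm_num, Real.log_pow]
    norm_num
  rw [h]
  linarith [Real.log_two_lt_d9]

theorem log_six : Real.log 6 ≤ 2 := by
  rw [Real.log_le_iff_le_exp (by norm_num)]
  have h1 := Real.exp_one_gt_d9
  have h2 : Real.exp 2 = Real.exp 1 * Real.exp 1 := by
    rw [← Real.exp_add]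
    norm_num
  rw [h2]
  nlinarith

theorem sum_psi (Q : ℕ) : ∑ d ∈ Icc 1 Q, Λ d ≤ 5.4 * Q := by
  have h1 := Chebyshev.psi_le_const_mul_self (x := (Q : ℝ)) (Nat.cast_nonneg Q)
  have h2 : Chebyshev.psi (Q : ℝ) = ∑ d ∈ Icc 1 Q, Λ d := by
    rw [Chebyshev.psi, Nat.floor_natCast]
    rfl
  rw [← h2]
  refine h1.trans ?_
  have := log_four
  have h3 : (0 : ℝ) ≤ Q := Nat.cast_nonneg Q
  nlinarith

theorem sum_inv (Q : ℕ) : ∑ d ∈ Icc 1 Q, Λ d / (z d : ℝ) ≤ 8 * √Q := by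
  set s := Nat.sqrt Q with hs
  have hs1 : (s : ℝ) ≤ √Q := by
    rw [hs]
    exact Real.nat_sqrt_le_real_sqrt
  have hs2 : √(Q : ℝ) ≤ s + 1 := by
    rw [hs]
    exact Real.real_sqrt_le_nat_sqrt_succ
  have h1 : ∀ d ∈ Icc 1 Q, Λ d / (z d : ℝ) ≤ Λ d / (s + 1) +
      ∑ t ∈ Icc 1 s, if z d = t then Λ d / t else 0 := by
    intro d _
    have h0 : 0 ≤ Λ d := vonMangoldt_nonneg
    have hnn : 0 ≤ ∑ t ∈ Icc 1 s, if z d = t then Λ d / (t : ℝ) else 0 := by
      refine sum_nonneg fun t _ => ?_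
      split_ifs
      · positivity
      · exact le_rfl
    rcases Nat.eq_zero_or_pos (z d) with hz | hz
    · rw [hz, Nat.cast_zero, div_zero]
      rw [hz] at hnn
      positivity
    · rcases le_or_gt (z d) s with h | h
      · rw [sum_ite_eq, if_pos (mem_Icc.2 ⟨hz, h⟩)]
        have : 0 ≤ Λ d / ((s : ℝ) + 1) := by positivity
        linarith
      · have h2 : (s : ℝ) + 1 ≤ z d := by exact_mod_cast h
        have h3 : Λ d / (z d : ℝ) ≤ Λ d / (s + 1) := div_le_div_of_nonneg_left h0 (by positivity) h2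
        linarith
  refine (sum_le_sum h1).trans ?_
  rw [sum_add_distrib, sum_comm, ← sum_div]
  have h2 : (∑ d ∈ Icc 1 Q, Λ d) / ((s : ℝ) + 1) ≤ 5.4 * √Q := by
    rw [div_le_iff₀ (by positivity)]
    refine (sum_psi Q).trans ?_
    have h3 : (Q : ℝ) = √Q * √Q := (Real.mul_self_sqrt (Nat.cast_nonneg Q)).symm
    have h4 := Real.sqrt_nonneg (Q : ℝ)
    nlinarith
  have h3 : ∑ t ∈ Icc 1 s, ∑ d ∈ Icc 1 Q, (if z d = t then Λ d / (t : ℝ) else 0) ≤ 2 * √Q := by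
    have h4 : ∀ t ∈ Icc 1 s, ∑ d ∈ Icc 1 Q, (if z d = t then Λ d / (t : ℝ) else 0) ≤ 2 := by
      intro t ht
      have ht' : 0 < t := (mem_Icc.1 ht).1
      have ht0 : (0 : ℝ) < t := by exact_mod_cast ht'
      rw [← sum_filter, ← sum_div, div_le_iff₀ ht0]
      refine (sum_rank ht' Q).trans ?_
      have := log_six
      nlinarith
    refine (sum_le_sum h4).trans ?_
    rw [sum_const, Nat.card_Icc, Nat.add_sub_cancel, nsmul_eq_mul]
    linarith
  have := Real.sqrt_nonneg (Q : ℝ)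
  linarith

theorem not_dvd_27 (m : ℕ) : ¬ 27 ∣ N m := by
  rw [N_bb]
  intro h
  have h3 : bb m % 3 = 0 := by
    have h1 : (64 * bb m ^ 2 + 9) % 3 = 0 := Nat.mod_eq_zero_of_dvd ((by norm_num : 3 ∣ 27).trans h)
    have h2 : bb m % 3 = 0 ∨ bb m % 3 = 1 ∨ bb m % 3 = 2 := by omega
    rcases h2 with h2 | h2 | h2
    · exact h2
    · rw [Nat.add_mod, Nat.mul_mod, Nat.pow_mod, h2] at h1
      norm_num at h1
    · rw [Nat.add_mod, Nat.mul_mod, Nat.pow_mod, h2] at h1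
      norm_num at h1
  obtain ⟨c, hc⟩ := Nat.dvd_of_mod_eq_zero h3
  rw [hc] at h
  have h4 : 3 ∣ 64 * c ^ 2 + 1 := by
    have h5 : 9 * 3 ∣ 9 * (64 * c ^ 2 + 1) := by
      convert h using 1
      ring
    exact Nat.dvd_of_mul_dvd_mul_left (by norm_num) h5
  have h1 : (64 * c ^ 2 + 1) % 3 = 0 := Nat.mod_eq_zero_of_dvd h4
  have h2 : c % 3 = 0 ∨ c % 3 = 1 ∨ c % 3 = 2 := by omega
  rcases h2 with h2 | h2 | h2 <;>
  · rw [Nat.add_mod, Nat.mul_mod, Nat.pow_mod, h2] at h1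
    norm_num at h1

theorem card_S_le (X d : ℕ) : #(S X d) ≤ X := by
  have := card_filter_le (Icc 1 X) fun m => d ∣ N m
  rwa [Nat.card_Icc, Nat.add_sub_cancel] at this

theorem term_le (X d : ℕ) : Λ d * #(S X d) ≤ Λ d * (2 * (X / (z d : ℝ)) + 2) +
    if d = 3 ∨ d = 9 then 2 * (X : ℝ) else 0 := by
  have h0 : 0 ≤ Λ d := vonMangoldt_nonneg
  have hif : (0 : ℝ) ≤ if d = 3 ∨ d = 9 then 2 * (X : ℝ) else 0 := by
    split_ifs <;> positivity
  by_cases h : Λ d = 0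
  · rw [h, zero_mul, zero_mul, zero_add]
    exact hif
  · have hpp : IsPrimePow d := by
      by_contra hc
      exact h ((vonMangoldt_eq_zero_iff).2 hc)
    obtain ⟨q, k, hq, hk, rfl⟩ := (isPrimePow_nat_iff _).1 hpp
    by_cases h3 : q = 3
    · subst h3
      rcases (by omega : k = 1 ∨ k = 2 ∨ 3 ≤ k) with rfl | rfl | hk3
      · have e : Λ (3 ^ 1) = Real.log 3 := by
          rw [vonMangoldt_apply_pow one_ne_zero, vonMangoldt_apply_prime Nat.prime_three]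
          norm_num
        have h1 : Real.log 3 ≤ 2 := (Real.log_le_log (by norm_num) (by norm_num)).trans log_six
        have h2 : (#(S X (3 ^ 1)) : ℝ) ≤ X := by exact_mod_cast card_S_le X _
        rw [if_pos (by norm_num)]
        have h4 : Λ (3 ^ 1) * #(S X (3 ^ 1)) ≤ 2 * X := by
          rw [e]
          exact mul_le_mul h1 h2 (Nat.cast_nonneg _) (by norm_num)
        have h5 : 0 ≤ Λ (3 ^ 1) * (2 * (X / (z (3 ^ 1) : ℝ)) + 2) := by positivity
        exact h4.trans (le_add_of_nonneg_left h5)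
      · have e : Λ (3 ^ 2) = Real.log 3 := by
          rw [vonMangoldt_apply_pow two_ne_zero, vonMangoldt_apply_prime Nat.prime_three]
          norm_num
        have h1 : Real.log 3 ≤ 2 := (Real.log_le_log (by norm_num) (by norm_num)).trans log_six
        have h2 : (#(S X (3 ^ 2)) : ℝ) ≤ X := by exact_mod_cast card_S_le X _
        rw [if_pos (by norm_num)]
        have h4 : Λ (3 ^ 2) * #(S X (3 ^ 2)) ≤ 2 * X := by
          rw [e]
          exact mul_le_mul h1 h2 (Nat.cast_nonneg _) (by norm_num)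
        have h5 : 0 ≤ Λ (3 ^ 2) * (2 * (X / (z (3 ^ 2) : ℝ)) + 2) := by positivity
        exact h4.trans (le_add_of_nonneg_left h5)
      · have h1 : S X (3 ^ k) = ∅ := by
          rw [S, filter_eq_empty_iff]
          intro m _ hm
          exact not_dvd_27 m ((pow_dvd_pow 3 hk3).trans hm)
        rw [h1, card_empty, Nat.cast_zero, mul_zero]
        positivity
    · have h1 : (#(S X (q ^ k)) : ℝ) ≤ 2 * (X / (z (q ^ k) : ℝ)) + 2 := by
        have h2 := card_S hq h3 hk X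
        have h4 : ((X / z (q ^ k) : ℕ) : ℝ) ≤ X / (z (q ^ k) : ℝ) := Nat.cast_div_le
        have h5 : (#(S X (q ^ k)) : ℝ) ≤ 2 * (((X / z (q ^ k) : ℕ) : ℝ) + 1) := by exact_mod_cast h2
        linarith
      have h2 := mul_le_mul_of_nonneg_left h1 h0
      linarith

theorem average (X Q : ℕ) : ∑ m ∈ Icc 1 X, ∑ d ∈ (Icc 1 Q).filter (fun d => d ∣ N m), Λ d ≤
    20 * (X * √Q + Q) := by
  rcases Nat.eq_zero_or_pos Q with rfl | hQ
  · simp
  have h1 : ∑ m ∈ Icc 1 X, ∑ d ∈ (Icc 1 Q).filter (fun d => d ∣ N m), Λ d =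
      ∑ d ∈ Icc 1 Q, Λ d * #(S X d) := by
    simp_rw [sum_filter]
    rw [sum_comm]
    refine sum_congr rfl fun d _ => ?_
    rw [← sum_filter, sum_const, nsmul_eq_mul, mul_comm]
    rfl
  rw [h1]
  refine (sum_le_sum fun d _ => term_le X d).trans ?_
  rw [sum_add_distrib]
  have h2 : ∑ d ∈ Icc 1 Q, Λ d * (2 * (X / (z d : ℝ)) + 2) =
      2 * X * ∑ d ∈ Icc 1 Q, Λ d / (z d : ℝ) + 2 * ∑ d ∈ Icc 1 Q, Λ d := by
    rw [mul_sum, mul_sum, ← sum_add_distrib]
    exact sum_congr rfl fun d _ => by ring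
  have h3 : ∑ d ∈ Icc 1 Q, (if d = 3 ∨ d = 9 then 2 * (X : ℝ) else 0) ≤ 4 * X := by
    rw [← sum_filter, sum_const, nsmul_eq_mul]
    have h4 : #((Icc 1 Q).filter fun d => d = 3 ∨ d = 9) ≤ 2 := by
      refine (card_le_card (t := {3, 9}) fun d hd => ?_).trans (card_le_two)
      rw [mem_filter] at hd
      rw [mem_insert, mem_singleton]
      exact hd.2
    have h5 : (#((Icc 1 Q).filter fun d => d = 3 ∨ d = 9) : ℝ) ≤ 2 := by exact_mod_cast h4
    have h6 : (0 : ℝ) ≤ X := Nat.cast_nonneg X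
    nlinarith
  rw [h2]
  have h4 := sum_inv Q
  have h5 := sum_psi Q
  have h6 : (0 : ℝ) ≤ X := Nat.cast_nonneg X
  have h7 : (1 : ℝ) ≤ √Q := by
    rw [Real.one_le_sqrt]
    exact_mod_cast hQ
  have h8 : (0 : ℝ) ≤ Q := Nat.cast_nonneg Q
  have h9 := mul_le_mul_of_nonneg_left h4 (by positivity : (0 : ℝ) ≤ 2 * X)
  have h10 : (X : ℝ) ≤ X * √Q := le_mul_of_one_le_right h6 h7
  nlinarith

/-- the least common multiple of the divisors `≤ Q` of `n` -/
def L (Q n : ℕ) : ℕ := ((Icc 1 Q).filter (fun d => d ∣ n)).lcm id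

theorem pp_dvd {q k a b : ℕ} (hq : q.Prime) (ha : a ≠ 0) (hb : b ≠ 0) (h : q ^ k ∣ Nat.lcm a b) :
    q ^ k ∣ a ∨ q ^ k ∣ b := by
  rw [hq.pow_dvd_iff_le_factorization (Nat.lcm_ne_zero ha hb), Nat.factorization_lcm ha hb,
    Finsupp.sup_apply] at h
  rw [hq.pow_dvd_iff_le_factorization ha, hq.pow_dvd_iff_le_factorization hb]
  exact le_sup_iff.1 h

theorem pp_dvd_lcm {q k : ℕ} (hq : q.Prime) (hk : 0 < k) (s : Finset ℕ) (hs : ∀ d ∈ s, d ≠ 0)
    (h : q ^ k ∣ s.lcm id) : ∃ d ∈ s, q ^ k ∣ d := by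
  induction s using Finset.induction_on with
  | empty =>
    rw [lcm_empty] at h
    have h1 : q ∣ 1 := (dvd_pow_self q hk.ne').trans h
    exact absurd (Nat.dvd_one.1 h1) hq.one_lt.ne'
  | insert a s ha ih =>
    rw [lcm_insert, id] at h
    have h1 : s.lcm id ≠ 0 := by
      intro h0
      rw [Finset.lcm_eq_zero_iff] at h0
      obtain ⟨d, hd, hd0⟩ := h0
      exact hs d (mem_insert_of_mem hd) hd0
    rcases pp_dvd hq (hs a (mem_insert_self _ _)) h1 h with h2 | h2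
    · exact ⟨a, mem_insert_self _ _, h2⟩
    · obtain ⟨d, hd, hd'⟩ := ih (fun d hd => hs d (mem_insert_of_mem hd)) h2
      exact ⟨d, mem_insert_of_mem hd, hd'⟩

theorem L_ne_zero (Q n : ℕ) : L Q n ≠ 0 := by
  intro h0
  unfold L at h0
  rw [Finset.lcm_eq_zero_iff] at h0
  obtain ⟨d, hd, hd0⟩ := h0
  rw [mem_filter, mem_Icc] at hd
  have : d = 0 := hd0
  omega

theorem log_L_le (Q n : ℕ) : Real.log (L Q n) ≤ ∑ d ∈ (Icc 1 Q).filter (fun d => d ∣ n), Λ d := by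
  rw [← vonMangoldt_sum, ← sum_filter_ne_zero]
  refine sum_le_sum_of_subset_of_nonneg (fun k hk => ?_) fun _ _ _ => vonMangoldt_nonneg
  rw [mem_filter, Nat.mem_divisors] at hk
  obtain ⟨⟨hk1, -⟩, hk2⟩ := hk
  have hpp : IsPrimePow k := by
    by_contra hc
    exact hk2 ((vonMangoldt_eq_zero_iff).2 hc)
  obtain ⟨q, j, hq, hj, rfl⟩ := (isPrimePow_nat_iff _).1 hpp
  obtain ⟨d, hd, hd'⟩ := pp_dvd_lcm hq hj _ (fun d hd => by
    rw [mem_filter, mem_Icc] at hd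
    omega) hk1
  rw [mem_filter, mem_Icc] at hd ⊢
  exact ⟨⟨Nat.one_le_pow _ _ hq.pos, (Nat.le_of_dvd (by omega) hd').trans hd.1.2⟩, hd'.trans hd.2⟩

theorem L_mono {Q Q' : ℕ} (h : Q ≤ Q') (n : ℕ) : L Q n ≤ L Q' n := by
  refine Nat.le_of_dvd (Nat.pos_of_ne_zero (L_ne_zero _ _)) (lcm_mono ?_)
  intro d hd
  rw [mem_filter, mem_Icc] at hd ⊢
  exact ⟨⟨hd.1.1, hd.1.2.trans h⟩, hd.2⟩

/-- if all prime factors of `n` are at most `Q`, their product is at most `L Q n` -/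
theorem rad_le {Q n : ℕ} (h : ∀ q ∈ n.primeFactors, q ≤ Q) : ∏ q ∈ n.primeFactors, q ≤ L Q n := by
  refine Nat.le_of_dvd (Nat.pos_of_ne_zero (L_ne_zero _ _)) ?_
  refine Finset.prod_primes_dvd _ (fun q hq => (Nat.prime_of_mem_primeFactors hq).prime) fun q hq => ?_
  refine dvd_lcm (f := id) ?_
  rw [mem_filter, mem_Icc]
  exact ⟨⟨(Nat.prime_of_mem_primeFactors hq).pos, h q hq⟩, Nat.dvd_of_mem_primeFactors hq⟩

end Pool.Agent.L5helper73.LD
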