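import Pool.Agent.L5helper73.LD.B

/-!
# The numbers `N_m = 8 d_m ^ 2 + 1`: almost all of them
-/

set_option autoImplicit false

namespace Pool.Agent.L5helper73.LD

open Finset Pool.Agent.R803.PV

theorem average_L (X Q : ℕ) : ∑ m ∈ Icc 1 X, Real.log (L Q (N m)) ≤ 20 * (X * √Q + Q) :=
  (sum_le_sum fun m _ => log_L_le Q (N m)).trans (average X Q)

open Classical in
theorem almost_aux {ε : ℝ} (hε : 0 < ε) (h1 : ε ≤ 1) (X : ℕ) :
    (#((Icc 1 X).filter fun m : ℕ => ε * Real.log (N m) <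
      Real.log (L ⌊(ε ^ 3 / 160) ^ 2 * (m : ℝ) ^ 2⌋₊ (N m))) : ℝ) ≤ ε * X := by
  rcases Nat.eq_zero_or_pos X with rfl | hX
  · simp
  have hX0 : (0 : ℝ) < X := by exact_mod_cast hX
  set θ : ℝ := ε ^ 3 / 160 with hθ
  have hθ0 : 0 < θ := by positivity
  have hθ1 : θ ≤ 1 := by
    have : ε ^ 3 ≤ 1 := pow_le_one₀ hε.le h1
    rw [hθ]
    linarith
  set Q : ℕ := ⌊θ ^ 2 * (X : ℝ) ^ 2⌋₊ with hQ
  set A := (Icc 1 X).filter fun m : ℕ => (m : ℝ) ≤ ε * X / 2 with hA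
  set B := (Icc 1 X).filter fun m : ℕ => ε * X / 2 < (m : ℝ) ∧ ε * Real.log (N m) <
      Real.log (L ⌊θ ^ 2 * (m : ℝ) ^ 2⌋₊ (N m)) with hB
  have hsub : ((Icc 1 X).filter fun m : ℕ => ε * Real.log (N m) <
      Real.log (L ⌊θ ^ 2 * (m : ℝ) ^ 2⌋₊ (N m))) ⊆ A ∪ B := by
    intro m hm
    rw [mem_filter] at hm
    rw [mem_union, hA, hB, mem_filter, mem_filter]
    rcases le_or_gt (m : ℝ) (ε * X / 2) with h | h
    · exact Or.inl ⟨hm.1, h⟩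
    · exact Or.inr ⟨hm.1, h, hm.2⟩
  have hcA : (#A : ℝ) ≤ ε * X / 2 := by
    have h2 : A ⊆ Icc 1 ⌊ε * X / 2⌋₊ := by
      intro m hm
      rw [hA, mem_filter, mem_Icc] at hm
      rw [mem_Icc]
      exact ⟨hm.1.1, Nat.le_floor hm.2⟩
    have h3 := card_le_card h2
    rw [Nat.card_Icc, Nat.add_sub_cancel] at h3
    have h4 : (#A : ℝ) ≤ (⌊ε * X / 2⌋₊ : ℝ) := by exact_mod_cast h3
    exact h4.trans (Nat.floor_le (by positivity))
  have hcB : (#B : ℝ) * (ε ^ 2 * X / 2) ≤ 40 * θ * X ^ 2 := by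
    have h2 : ∀ m ∈ B, ε ^ 2 * X / 2 ≤ Real.log (L Q (N m)) := by
      intro m hm
      rw [hB, mem_filter, mem_Icc] at hm
      obtain ⟨⟨hm1, hm2⟩, hm3, hm4⟩ := hm
      have h3 : Real.log (L ⌊θ ^ 2 * (m : ℝ) ^ 2⌋₊ (N m)) ≤ Real.log (L Q (N m)) := by
        refine Real.log_le_log (by exact_mod_cast Nat.pos_of_ne_zero (L_ne_zero _ _)) ?_
        have h4 : L ⌊θ ^ 2 * (m : ℝ) ^ 2⌋₊ (N m) ≤ L Q (N m) := by
          refine L_mono (Nat.floor_le_floor ?_) _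
          have : (m : ℝ) ≤ X := by exact_mod_cast hm2
          gcongr
        exact_mod_cast h4
      have h5 := log_N_ge m
      have h6 : ε * (m : ℝ) ≤ ε * Real.log (N m) := mul_le_mul_of_nonneg_left h5 hε.le
      have h7 : ε * (ε * X / 2) ≤ ε * (m : ℝ) := mul_le_mul_of_nonneg_left hm3.le hε.le
      have h8 : ε ^ 2 * X / 2 = ε * (ε * X / 2) := by ring
      rw [h8]
      linarith
    have h3 : (#B : ℝ) * (ε ^ 2 * X / 2) ≤ ∑ m ∈ B, Real.log (L Q (N m)) := by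
      rw [← nsmul_eq_mul, ← sum_const]
      exact sum_le_sum h2
    have h4 : ∑ m ∈ B, Real.log (L Q (N m)) ≤ ∑ m ∈ Icc 1 X, Real.log (L Q (N m)) := by
      refine sum_le_sum_of_subset_of_nonneg (filter_subset _ _) fun m _ _ => ?_
      exact Real.log_natCast_nonneg _
    have h5 := average_L X Q
    have h6 : (Q : ℝ) ≤ θ ^ 2 * (X : ℝ) ^ 2 := Nat.floor_le (by positivity)
    have h7 : √(Q : ℝ) ≤ θ * X := by
      rw [show θ * (X : ℝ) = √((θ * X) ^ 2) by rw [Real.sqrt_sq (by positivity)]]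
      refine Real.sqrt_le_sqrt ?_
      rw [mul_pow]
      exact h6
    have h8 : θ ^ 2 ≤ θ := by nlinarith
    have h9 : (X : ℝ) * √Q ≤ X * (θ * X) := mul_le_mul_of_nonneg_left h7 hX0.le
    have h10 : θ ^ 2 * (X : ℝ) ^ 2 ≤ θ * X ^ 2 := mul_le_mul_of_nonneg_right h8 (sq_nonneg _)
    calc (#B : ℝ) * (ε ^ 2 * X / 2) ≤ 20 * (X * √Q + Q) := h3.trans (h4.trans h5)
      _ ≤ 20 * (X * (θ * X) + θ * X ^ 2) := by linarith
      _ = 40 * θ * X ^ 2 := by ring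
  have hcB' : (#B : ℝ) ≤ ε * X / 2 := by
    have h2 : (0 : ℝ) < ε ^ 2 * X / 2 := by positivity
    have h3 : (#B : ℝ) * (ε ^ 2 * X / 2) ≤ (ε * X / 2) * (ε ^ 2 * X / 2) := by
      refine hcB.trans (le_of_eq ?_)
      rw [hθ]
      ring
    exact le_of_mul_le_mul_right h3 h2
  have h2 := (card_le_card hsub).trans (card_union_le _ _)
  have h3 : (#((Icc 1 X).filter fun m : ℕ => ε * Real.log (N m) <
      Real.log (L ⌊θ ^ 2 * (m : ℝ) ^ 2⌋₊ (N m))) : ℝ) ≤ #A + #B := by exact_mod_cast h2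
  linarith

theorem N_pos (m : ℕ) : (0 : ℝ) < N m := by
  have : 0 < N m := by
    rw [N_dd]
    omega
  exact_mod_cast this

open Classical in
theorem almost {ε : ℝ} (hε : 0 < ε) : ∃ δ : ℝ, 0 < δ ∧ ∀ X : ℕ,
    (#((Icc 1 X).filter fun m : ℕ => (N m : ℝ) ^ ε < (L ⌊δ * (m : ℝ) ^ 2⌋₊ (N m) : ℝ)) : ℝ) ≤ ε * X := by
  set ε' := min ε 1 with hε'
  have h0 : 0 < ε' := lt_min hε one_pos
  refine ⟨(ε' ^ 3 / 160) ^ 2, by positivity, fun X => ?_⟩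
  have h1 := almost_aux h0 (min_le_right _ _) X
  have h2 : ε' * X ≤ ε * X := mul_le_mul_of_nonneg_right (min_le_left _ _) (Nat.cast_nonneg X)
  refine le_trans ?_ (h1.trans h2)
  have h3 : ((Icc 1 X).filter fun m : ℕ => (N m : ℝ) ^ ε < (L ⌊(ε' ^ 3 / 160) ^ 2 * (m : ℝ) ^ 2⌋₊ (N m) : ℝ)) ⊆
      ((Icc 1 X).filter fun m : ℕ => ε' * Real.log (N m) <
        Real.log (L ⌊(ε' ^ 3 / 160) ^ 2 * (m : ℝ) ^ 2⌋₊ (N m))) := by
    intro m hm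
    rw [mem_filter] at hm ⊢
    refine ⟨hm.1, ?_⟩
    have h4 := Real.log_lt_log (Real.rpow_pos_of_pos (N_pos m) ε) hm.2
    rw [Real.log_rpow (N_pos m)] at h4
    refine lt_of_le_of_lt ?_ h4
    exact mul_le_mul_of_nonneg_right (min_le_left _ _) (Real.log_natCast_nonneg _)
  exact_mod_cast card_le_card h3

open Classical in
theorem large_factor {ε : ℝ} (hε : 0 < ε) : ∃ δ : ℝ, 0 < δ ∧ ∀ X : ℕ,
    (#((Icc 1 X).filter fun m : ℕ => (∀ q : ℕ, q.Prime → q ∣ N m → (q : ℝ) ≤ δ * (m : ℝ) ^ 2) ∧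
      (N m : ℝ) ^ ε < ((∏ q ∈ (N m).primeFactors, q : ℕ) : ℝ)) : ℝ) ≤ ε * X := by
  obtain ⟨δ, hδ, h⟩ := almost hε
  refine ⟨δ, hδ, fun X => le_trans ?_ (h X)⟩
  have h3 : ((Icc 1 X).filter fun m : ℕ => (∀ q : ℕ, q.Prime → q ∣ N m → (q : ℝ) ≤ δ * (m : ℝ) ^ 2) ∧
      (N m : ℝ) ^ ε < ((∏ q ∈ (N m).primeFactors, q : ℕ) : ℝ)) ⊆
      ((Icc 1 X).filter fun m : ℕ => (N m : ℝ) ^ ε < (L ⌊δ * (m : ℝ) ^ 2⌋₊ (N m) : ℝ)) := by
    intro m hm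
    rw [mem_filter] at hm ⊢
    refine ⟨hm.1, hm.2.2.trans_le ?_⟩
    have h4 : ∏ q ∈ (N m).primeFactors, q ≤ L ⌊δ * (m : ℝ) ^ 2⌋₊ (N m) :=
      rad_le fun q hq => Nat.le_floor
        (hm.2.1 q (Nat.prime_of_mem_primeFactors hq) (Nat.dvd_of_mem_primeFactors hq))
    exact_mod_cast h4
  exact_mod_cast card_le_card h3

end Pool.Agent.L5helper73.LD
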